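import Pool.Agent.E8helper29.Zn.Stm2

/-!
# Project ZN2, piece 23: local polynomial approximation of `kap`
-/

set_option autoImplicit false

namespace Pool.Agent.E8helper25.Zn

open MeasureTheory ProbabilityTheory Polynomial Pool.Agent.Helper649.Zono Pool.Agent.E8helper29.Zn
open scoped Nat NNReal

/-- the Girsanov weight -/
noncomputable def gir (y x : ℝ) : ℝ := Real.exp (x * y - y ^ 2 / 2)

/-- the shift formula -/
lemma shift (F : ℝ → ℝ) (hF : Measurable F) (y : ℝ) :
    ∫ x, F (y + x) ∂(gaussianReal 0 1) = ∫ x, F x * gir y x ∂(gaussianReal 0 1) := by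
  have h1 : ∫ x, F (y + x) ∂(gaussianReal 0 1) = ∫ x, F x ∂(gaussianReal y 1) := by
    have h2 := gaussianReal_map_const_add (μ := 0) (v := 1) y
    rw [zero_add] at h2
    rw [← h2, integral_map (by fun_prop) hF.aestronglyMeasurable]
  rw [h1, integral_gaussianReal_eq_integral_smul one_ne_zero,
    integral_gaussianReal_eq_integral_smul one_ne_zero]
  congr 1
  funext x
  simp only [smul_eq_mul]
  have h3 : gaussianPDFReal y 1 x = gaussianPDFReal 0 1 x * gir y x := by
    unfold gaussianPDFReal gir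
    have e : Real.exp (-(x - y) ^ 2 / (2 * ((1 : ℝ≥0) : ℝ))) =
        Real.exp (-(x - 0) ^ 2 / (2 * ((1 : ℝ≥0) : ℝ))) * Real.exp (x * y - y ^ 2 / 2) := by
      rw [← Real.exp_add]
      congr 1
      simp only [NNReal.coe_one]
      ring
    rw [e]
    ring
  rw [h3]
  ring

lemma gir_sq (y x : ℝ) : gir y x ^ 2 = Real.exp (2 * y * x) * Real.exp (-(y ^ 2)) := by
  unfold gir
  rw [← Real.exp_nat_mul, ← Real.exp_add]
  congr 1
  push_cast
  ring

lemma gir_cont (y : ℝ) : Continuous (gir y) := by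
  unfold gir
  fun_prop

lemma gir_mem (y : ℝ) : MemLp (gir y) 2 (gaussianReal 0 1) := by
  rw [memLp_two_iff_integrable_sq (gir_cont y).aestronglyMeasurable]
  have h1 := (integrable_exp_mul_gaussianReal (μ := 0) (v := 1) (2 * y)).mul_const
    (Real.exp (-(y ^ 2)))
  refine h1.congr (Filter.Eventually.of_forall fun x => ?_)
  exact (gir_sq y x).symm

lemma gir_int_sq (y : ℝ) : ∫ x, gir y x ^ 2 ∂(gaussianReal 0 1) = Real.exp (y ^ 2) := by
  have h1 : ∀ x, gir y x ^ 2 = Real.exp (2 * y * x) * Real.exp (-(y ^ 2)) := gir_sq y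
  simp_rw [h1]
  rw [integral_mul_const]
  have h2 := congrFun (mgf_id_gaussianReal (μ := 0) (v := 1)) (2 * y)
  unfold mgf at h2
  simp only [id] at h2
  rw [h2, ← Real.exp_add]
  congr 1
  simp only [NNReal.coe_one]
  ring

lemma He_zero' (x : ℝ) : He 0 x = 1 := by
  simp [He, HP]

/-- the smoothed Hermite polynomials -/
lemma He_shift (d : ℕ) : ∀ y : ℝ, ∫ x, He d (y + x) ∂(gaussianReal 0 1) = y ^ d := by
  induction d with
  | zero =>
    intro y
    simp [He_zero']
  | succ d ih =>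
    have hder : ∀ u, HasDerivAt (fun u => ∫ b, He (d + 1) (u + b) ∂(gaussianReal 0 1))
        (((d : ℝ) + 1) * u ^ d) u := by
      intro u
      have h1 := sm_deriv (HP (d + 1)) 1 u
      refine h1.congr_deriv ?_
      rw [HP_deriv]
      have h2 : ∀ b, eval (u + b) (C ((d : ℝ) + 1) * HP d) = ((d : ℝ) + 1) * He d (u + b) := by
        intro b
        simp [He]
      simp only [h2]
      rw [integral_const_mul, ih u]
    have hder2 : ∀ u : ℝ, HasDerivAt (fun u : ℝ => u ^ (d + 1)) (((d : ℝ) + 1) * u ^ d) u := by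
      intro u
      have := hasDerivAt_pow (d + 1) u
      simpa using this
    intro y
    have hd : ∀ u, HasDerivAt (fun u => (∫ b, He (d + 1) (u + b) ∂(gaussianReal 0 1)) -
        u ^ (d + 1)) 0 u := by
      intro u
      have := (hder u).sub (hder2 u)
      rw [sub_self] at this
      exact this
    have hc := is_const_of_deriv_eq_zero (fun x => (hd x).differentiableAt)
      (fun x => (hd x).deriv) y 0
    have h0 : ∫ b, He (d + 1) (0 + b) ∂(gaussianReal 0 1) = 0 := by
      simp only [zero_add]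
      exact He_mean d
    have h1 : (0 : ℝ) ^ (d + 1) = 0 := by simp
    have h2 : (∫ b, He (d + 1) (y + b) ∂(gaussianReal 0 1)) - y ^ (d + 1) =
        (∫ b, He (d + 1) (0 + b) ∂(gaussianReal 0 1)) - (0 : ℝ) ^ (d + 1) := hc
    rw [h0, h1] at h2
    linarith

lemma He_meas (d : ℕ) : Continuous (He d) := (HP d).continuous

lemma gir_He (y : ℝ) (d : ℕ) : ∫ x, He d x * gir y x ∂(gaussianReal 0 1) = y ^ d := by
  rw [← shift (He d) (He_meas d).measurable y]
  exact He_shift d y

lemma He_orth_lt : ∀ (m l : ℕ), l < m → ∀ p : ℝ[X], p.natDegree ≤ l →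
    ∫ x, He m x * p.eval x ∂(gaussianReal 0 1) = 0 := by
  intro m
  induction m with
  | zero => intro l hl; omega
  | succ m ih =>
    intro l hl p hp
    rw [He_ibp]
    by_cases hl0 : p.natDegree = 0
    · have h1 : derivative p = 0 := by
        rw [Polynomial.eq_C_of_natDegree_eq_zero hl0, derivative_C]
      rw [h1]
      simp
    · have h2 : (derivative p).natDegree ≤ l - 1 :=
        (natDegree_derivative_le p).trans (by omega)
      exact ih (l - 1) (by omega) _ h2

lemma HP_deg (d : ℕ) : (HP d).natDegree ≤ d := by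
  unfold HP
  exact (natDegree_map_le).trans (by rw [natDegree_hermite])

lemma He_orth (m l : ℕ) : ∫ x, He m x * He l x ∂(gaussianReal 0 1) =
    if m = l then (m ! : ℝ) else 0 := by
  by_cases h : m = l
  · rw [if_pos h, h, He_sq]
  · rw [if_neg h]
    rcases lt_or_gt_of_ne h with h1 | h1
    · have := He_orth_lt l m h1 (HP m) (HP_deg m)
      have e : (fun x => He m x * He l x) = fun x => He l x * (HP m).eval x := by
        funext x
        exact mul_comm _ _
      rw [e]
      exact this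
    · exact He_orth_lt m l h1 (HP l) (HP_deg l)

/-- the truncated expansion -/
noncomputable def trn (J : ℕ) (y x : ℝ) : ℝ := ∑ m ∈ Finset.range (J + 1), y ^ m / (m ! : ℝ) * He m x

lemma trn_mem (J : ℕ) (y : ℝ) : MemLp (trn J y) 2 (gaussianReal 0 1) := by
  unfold trn
  exact memLp_finsetSum _ fun m _ => (memLp_He_real833 m).const_mul _

lemma int_mul {f g : ℝ → ℝ} (hf : MemLp f 2 (gaussianReal 0 1)) (hg : MemLp g 2 (gaussianReal 0 1)) :
    Integrable (fun x => f x * g x) (gaussianReal 0 1) := hf.integrable_mul hg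

lemma trn_gir (J : ℕ) (y : ℝ) : ∫ x, trn J y x * gir y x ∂(gaussianReal 0 1) =
    ∑ m ∈ Finset.range (J + 1), (y ^ 2) ^ m / (m ! : ℝ) := by
  have h1 : ∀ x, trn J y x * gir y x = ∑ m ∈ Finset.range (J + 1),
      y ^ m / (m ! : ℝ) * (He m x * gir y x) := by
    intro x
    unfold trn
    rw [Finset.sum_mul]
    exact Finset.sum_congr rfl fun m _ => by ring
  simp_rw [h1]
  rw [integral_finsetSum _ fun m _ => (int_mul (memLp_He_real833 m) (gir_mem y)).const_mul _]
  refine Finset.sum_congr rfl fun m _ => ?_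
  rw [integral_const_mul, gir_He]
  ring

lemma trn_sq (J : ℕ) (y : ℝ) : ∫ x, trn J y x ^ 2 ∂(gaussianReal 0 1) =
    ∑ m ∈ Finset.range (J + 1), (y ^ 2) ^ m / (m ! : ℝ) := by
  have h1 : ∀ x, trn J y x ^ 2 = ∑ m ∈ Finset.range (J + 1), ∑ l ∈ Finset.range (J + 1),
      (y ^ m / (m ! : ℝ) * (y ^ l / (l ! : ℝ))) * (He m x * He l x) := by
    intro x
    unfold trn
    rw [sq, Finset.sum_mul_sum]
    exact Finset.sum_congr rfl fun m _ => Finset.sum_congr rfl fun l _ => by ring
  simp_rw [h1]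
  rw [integral_finsetSum _ fun m _ => integrable_finsetSum _ fun l _ =>
    (int_mul (memLp_He_real833 m) (memLp_He_real833 l)).const_mul _]
  refine Finset.sum_congr rfl fun m hm => ?_
  rw [integral_finsetSum _ fun l _ =>
    (int_mul (memLp_He_real833 m) (memLp_He_real833 l)).const_mul _]
  rw [Finset.sum_eq_single m]
  · rw [integral_const_mul, He_orth, if_pos rfl]
    have : (m ! : ℝ) ≠ 0 := by exact_mod_cast m.factorial_ne_zero
    have e : (y ^ 2) ^ m = y ^ m * y ^ m := by ring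
    rw [e]
    field_simp
  · intro l _ hl
    rw [integral_const_mul, He_orth, if_neg (Ne.symm hl), mul_zero]
  · intro h
    exact absurd hm h

lemma err_sq (J : ℕ) (y : ℝ) : ∫ x, (gir y x - trn J y x) ^ 2 ∂(gaussianReal 0 1) =
    Real.exp (y ^ 2) - ∑ m ∈ Finset.range (J + 1), (y ^ 2) ^ m / (m ! : ℝ) := by
  have h1 : ∀ x, (gir y x - trn J y x) ^ 2 = gir y x ^ 2 - 2 * (trn J y x * gir y x) +
      trn J y x ^ 2 := by
    intro x
    ring
  simp_rw [h1]
  have i1 := (gir_mem y).integrable_sq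
  have i2 := (int_mul (trn_mem J y) (gir_mem y)).const_mul 2
  have i3 := (trn_mem J y).integrable_sq
  have e1 : ∫ x, (gir y x ^ 2 - 2 * (trn J y x * gir y x) + trn J y x ^ 2) ∂(gaussianReal 0 1) =
      ∫ x, (gir y x ^ 2 - 2 * (trn J y x * gir y x)) ∂(gaussianReal 0 1) +
        ∫ x, trn J y x ^ 2 ∂(gaussianReal 0 1) := integral_add (i1.sub i2) i3
  have e2 : ∫ x, (gir y x ^ 2 - 2 * (trn J y x * gir y x)) ∂(gaussianReal 0 1) =
      ∫ x, gir y x ^ 2 ∂(gaussianReal 0 1) -
        ∫ x, 2 * (trn J y x * gir y x) ∂(gaussianReal 0 1) := integral_sub i1 i2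
  rw [e1, e2, integral_const_mul, gir_int_sq, trn_gir, trn_sq]
  ring

lemma tail (J : ℕ) (y : ℝ) (hy : |y| ≤ 1) :
    Real.exp (y ^ 2) - ∑ m ∈ Finset.range (J + 1), (y ^ 2) ^ m / (m ! : ℝ) ≤
      4 / ((J + 1)! : ℕ) := by
  have h0 : 0 ≤ y ^ 2 := sq_nonneg y
  have h1 : y ^ 2 ≤ 1 := by
    rw [← sq_abs]
    exact pow_le_one₀ (abs_nonneg y) hy
  have h2 := Real.exp_bound' h0 h1 (n := J + 1) (Nat.succ_pos J)
  have h3 : (y ^ 2) ^ (J + 1) * (((J + 1 : ℕ) : ℝ) + 1) / (((J + 1)! : ℕ) * ((J + 1 : ℕ) : ℝ)) ≤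
      4 / ((J + 1)! : ℕ) := by
    have hf : (0 : ℝ) < ((J + 1)! : ℕ) := by exact_mod_cast (J + 1).factorial_pos
    have hj : (0 : ℝ) < ((J + 1 : ℕ) : ℝ) := by positivity
    have h4 : (y ^ 2) ^ (J + 1) ≤ 1 := pow_le_one₀ h0 h1
    rw [div_le_div_iff₀ (by positivity) hf]
    have h5 : (1 : ℝ) ≤ ((J + 1 : ℕ) : ℝ) := by
      push_cast
      have : (0 : ℝ) ≤ (J : ℝ) := Nat.cast_nonneg J
      linarith
    have h6 : (y ^ 2) ^ (J + 1) * (((J + 1 : ℕ) : ℝ) + 1) ≤ 4 * ((J + 1 : ℕ) : ℝ) := by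
      calc (y ^ 2) ^ (J + 1) * (((J + 1 : ℕ) : ℝ) + 1) ≤ 1 * (((J + 1 : ℕ) : ℝ) + 1) :=
            mul_le_mul_of_nonneg_right h4 (by positivity)
        _ ≤ 4 * ((J + 1 : ℕ) : ℝ) := by linarith
    calc (y ^ 2) ^ (J + 1) * (((J + 1 : ℕ) : ℝ) + 1) * ((J + 1)! : ℕ)
        ≤ 4 * ((J + 1 : ℕ) : ℝ) * ((J + 1)! : ℕ) := mul_le_mul_of_nonneg_right h6 hf.le
      _ = 4 * (((J + 1)! : ℕ) * ((J + 1 : ℕ) : ℝ)) := by ring
  linarith

lemma abs_mem (A : ℝ) : MemLp (fun x : ℝ => |A + x|) 2 (gaussianReal 0 1) := by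
  have hm : Measurable (fun x : ℝ => |A + x|) := by fun_prop
  rw [memLp_two_iff_integrable_sq hm.aestronglyMeasurable]
  have h1 := poly_integrable ((C A + X) ^ 2) 1
  refine h1.congr (Filter.Eventually.of_forall fun x => ?_)
  simp

lemma abs_sq (A : ℝ) : ∫ x, |A + x| ^ 2 ∂(gaussianReal 0 1) ≤ (1 + |A|) ^ 2 := by
  have h1 : ∀ x : ℝ, |A + x| ^ 2 = (A ^ 2 * (He 0 x * He 0 x) + 2 * A * He 1 x) +
      He 1 x * He 1 x := by
    intro x
    have e1 : He 1 x = x := by simp [He, HP]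
    rw [sq_abs, He_zero', e1]
    ring
  simp_rw [h1]
  have i1 := (int_mul (memLp_He_real833 0) (memLp_He_real833 0)).const_mul (A ^ 2)
  have i2 : Integrable (fun x => 2 * A * He 1 x) (gaussianReal 0 1) :=
    (poly_integrable (HP 1) 1).const_mul _
  have i3 := int_mul (memLp_He_real833 1) (memLp_He_real833 1)
  have e1 : ∫ x, (A ^ 2 * (He 0 x * He 0 x) + 2 * A * He 1 x + He 1 x * He 1 x)
      ∂(gaussianReal 0 1) = ∫ x, (A ^ 2 * (He 0 x * He 0 x) + 2 * A * He 1 x) ∂(gaussianReal 0 1) +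
        ∫ x, He 1 x * He 1 x ∂(gaussianReal 0 1) := integral_add (i1.add i2) i3
  have e2 : ∫ x, (A ^ 2 * (He 0 x * He 0 x) + 2 * A * He 1 x) ∂(gaussianReal 0 1) =
      ∫ x, A ^ 2 * (He 0 x * He 0 x) ∂(gaussianReal 0 1) +
        ∫ x, 2 * A * He 1 x ∂(gaussianReal 0 1) := integral_add i1 i2
  rw [e1, e2, integral_const_mul, integral_const_mul, He_sq, He_sq, He_mean]
  simp only [Nat.factorial, Nat.cast_one, mul_one, mul_zero, add_zero]
  have := sq_abs A
  nlinarith [abs_nonneg A]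

theorem p23 : Stm23 := by
  intro J A hJ
  set P : ℝ[X] := ∑ m ∈ Finset.range (J + 1),
    C ((∫ x, |A + x| * He m x ∂(gaussianReal 0 1)) / (m ! : ℝ)) * X ^ m with hP
  refine ⟨P, ?_, ?_, ?_⟩
  · rw [hP]
    refine natDegree_sum_le_of_forall_le _ _ fun m hm => ?_
    exact (natDegree_C_mul_X_pow_le _ _).trans (Nat.lt_succ_iff.1 (Finset.mem_range.1 hm))
  · rw [hP, finsetSum_coeff]
    rw [Finset.sum_eq_single 1]
    · rw [coeff_C_mul_X_pow, if_pos rfl]
      unfold phi
      have e1 : ∀ x : ℝ, He 1 x = x := by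
        intro x
        simp [He, HP]
      simp [e1]
    · intro m _ hm
      rw [coeff_C_mul_X_pow, if_neg (Ne.symm hm)]
    · intro h
      exact absurd (Finset.mem_range.2 (by omega)) h
  · intro y hy
    have h1 : kap (A + y) = ∫ x, |A + x| * gir y x ∂(gaussianReal 0 1) := by
      rw [← shift (fun x => |A + x|) (by fun_prop) y]
      unfold kap
      congr 1
      funext x
      rw [add_assoc]
    have h2 : P.eval y = ∫ x, |A + x| * trn J y x ∂(gaussianReal 0 1) := by
      have e1 : ∀ x, |A + x| * trn J y x = ∑ m ∈ Finset.range (J + 1),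
          y ^ m / (m ! : ℝ) * (|A + x| * He m x) := by
        intro x
        unfold trn
        rw [Finset.mul_sum]
        exact Finset.sum_congr rfl fun m _ => by ring
      simp_rw [e1]
      rw [integral_finsetSum _ fun m _ => (int_mul (abs_mem A) (memLp_He_real833 m)).const_mul _,
        hP, eval_finsetSum]
      refine Finset.sum_congr rfl fun m _ => ?_
      rw [integral_const_mul]
      simp only [eval_mul, eval_C, eval_pow, eval_X]
      ring
    have h3 : kap (A + y) - P.eval y = ∫ x, |A + x| * (gir y x - trn J y x) ∂(gaussianReal 0 1) := by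
      rw [h1, h2, ← integral_sub (int_mul (abs_mem A) (gir_mem y)) (int_mul (abs_mem A) (trn_mem J y))]
      congr 1
      funext x
      ring
    have hm : MemLp (fun x => gir y x - trn J y x) 2 (gaussianReal 0 1) :=
      (gir_mem y).sub (trn_mem J y)
    have key : ∀ g : ℝ → ℝ, MemLp g 2 (gaussianReal 0 1) →
        (∫ x, g x ^ 2 ∂(gaussianReal 0 1) ≤ 4 / ((J + 1)! : ℕ)) →
        ∫ x, |A + x| * g x ∂(gaussianReal 0 1) ≤ 2 * (1 + |A|) / Real.sqrt ((J + 1)! : ℕ) := by
      intro g hg hgb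
      have hf : (0 : ℝ) < ((J + 1)! : ℕ) := by exact_mod_cast (J + 1).factorial_pos
      have h5 := cs833 (gaussianReal 0 1) (fun x => |A + x|) g (abs_mem A) hg
      have h6 : Real.sqrt (∫ x, |A + x| ^ 2 ∂(gaussianReal 0 1)) ≤ 1 + |A| := by
        apply Real.sqrt_le_iff.2
        exact ⟨by positivity, abs_sq A⟩
      have h7 : Real.sqrt (∫ x, g x ^ 2 ∂(gaussianReal 0 1)) ≤ 2 / Real.sqrt ((J + 1)! : ℕ) := by
        apply Real.sqrt_le_iff.2
        refine ⟨by positivity, hgb.trans (le_of_eq ?_)⟩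
        rw [div_pow, Real.sq_sqrt hf.le]
        norm_num
      calc ∫ x, |A + x| * g x ∂(gaussianReal 0 1)
          ≤ Real.sqrt (∫ x, |A + x| ^ 2 ∂(gaussianReal 0 1)) *
            Real.sqrt (∫ x, g x ^ 2 ∂(gaussianReal 0 1)) := h5
        _ ≤ (1 + |A|) * (2 / Real.sqrt ((J + 1)! : ℕ)) :=
            mul_le_mul h6 h7 (Real.sqrt_nonneg _) (by positivity)
        _ = 2 * (1 + |A|) / Real.sqrt ((J + 1)! : ℕ) := by ring
    rw [h3, abs_le]
    have hb : ∫ x, (gir y x - trn J y x) ^ 2 ∂(gaussianReal 0 1) ≤ 4 / ((J + 1)! : ℕ) := by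
      rw [err_sq]
      exact tail J y hy
    constructor
    · have h8 := key (fun x => -(gir y x - trn J y x)) hm.neg (by
        simp only [neg_sq]
        exact hb)
      have h9 : ∫ x, |A + x| * -(gir y x - trn J y x) ∂(gaussianReal 0 1) =
          -∫ x, |A + x| * (gir y x - trn J y x) ∂(gaussianReal 0 1) := by
        rw [← integral_neg]
        congr 1
        funext x
        ring
      rw [h9] at h8
      linarith
    · exact key _ hm hb

end Pool.Agent.E8helper25.Zn
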